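import Mathlib

/-!
Definitions for MP_783262_lc: rooted trees with at most two children per vertex, bottom-up
evaluation, unit disk graphs.
-/

set_option autoImplicit false

namespace Pool.Agent.Lib.MP783262

/-- Rooted trees in which every vertex has at most two children: one vertex, or a root with the
subtree at its only child, or a root with the two subtrees at its children. -/
inductive RTree where
  | leaf : RTree
  | one : RTree → RTree
  | two : RTree → RTree → RTree

namespace RTree

/-- The vertices of a tree, as words: `[]` is the root, and `false :: w` (`true :: w`) is the vertex
with word `w` in the subtree at the first (second) child of the root. -/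
def verts : RTree → Set (List Bool)
  | leaf => {[]}
  | one t => {[]} ∪ List.cons false '' verts t
  | two s t => {[]} ∪ (List.cons false '' verts s ∪ List.cons true '' verts t)

/-- The tree as a graph on its vertices: the children of `u` are the vertices `u ++ [b]`. -/
def graph (t : RTree) : SimpleGraph (verts t) where
  Adj u v := (∃ b, v.1 = u.1 ++ [b]) ∨ (∃ b, u.1 = v.1 ++ [b])
  symm := ⟨fun _ _ h => h.symm⟩
  loopless := ⟨fun _ h => by simp at h⟩

/-- Bottom-up evaluation: `a` is the state of a tree with one vertex, `f` and `g` give the state of
a tree from the states of the subtrees at the one or two children of its root. -/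
def eval {S : Type} (a : S) (f : S → S) (g : S → S → S) : RTree → S
  | leaf => a
  | one t => f (eval a f g t)
  | two s t => g (eval a f g s) (eval a f g t)

end RTree

/-- `G` is a unit disk graph: there are closed unit disks in the plane, one for each vertex, such
that two different vertices are adjacent iff their disks intersect. -/
def IsUnitDisk {V : Type} (G : SimpleGraph V) : Prop :=
  ∃ c : V → EuclideanSpace ℝ (Fin 2), ∀ u v, u ≠ v →
    (G.Adj u v ↔ (Metric.closedBall (c u) 1 ∩ Metric.closedBall (c v) 1).Nonempty)

end Pool.Agent.Lib.MP783262
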