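import Pool.Agent.Lib.MP_783262_lc.Proof

/-!
Trees which are not unit disk graphs although all their small connected subgraphs are.
-/

set_option autoImplicit false

namespace Pool.Agent.Lib.MP783262

open RTree

/-- The graph on all words: `u` is adjacent to `u ++ [b]`. -/
def wg : SimpleGraph (List Bool) where
  Adj u v := (∃ b, v = u ++ [b]) ∨ (∃ b, u = v ++ [b])
  symm := ⟨fun _ _ h => h.symm⟩
  loopless := ⟨fun _ h => by simp at h⟩

lemma isUnitDisk_of_inj {V W : Type} {G : SimpleGraph V} {H : SimpleGraph W} (e : V → W)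
    (he : Function.Injective e) (h : ∀ u v, G.Adj u v ↔ H.Adj (e u) (e v))
    (hH : IsUnitDisk H) : IsUnitDisk G := by
  obtain ⟨c, hc⟩ := hH
  exact ⟨fun v => c (e v), fun u v huv => by
    rw [h]; exact hc _ _ (fun h' => huv (he h'))⟩

/-- the subgraph of `wg` induced on `S` is a unit disk graph -/
def U (S : Set (List Bool)) : Prop := IsUnitDisk (wg.induce S)

lemma U_mono {S T : Set (List Bool)} (h : S ⊆ T) (H : U T) : U S :=
  isUnitDisk_of_inj (fun u => ⟨u.1, h u.2⟩)
    (fun _ _ huv => Subtype.ext (congrArg (fun x : T => x.1) huv)) (fun _ _ => Iff.rfl) H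

lemma U_verts {t : RTree} {Q : ℕ × ℕ → Prop} (H : Draw t Q) : U (verts t) :=
  isUnitDisk_of_inj (H := t.graph) id Function.injective_id (fun _ _ => Iff.rfl)
    ((isUnitDisk_graph t).1 (isUnitDisk_of_draw H))

lemma const {V : Type} {G : SimpleGraph V} (hG : G.Preconnected) (φ : V → Prop)
    (h : ∀ u v, G.Adj u v → φ u → φ v) (u v : V) (hu : φ u) : φ v := by
  obtain ⟨w⟩ := hG u v
  induction w with
  | nil => exact hu
  | cons hadj w ih => exact ih (h _ _ hadj hu)

lemma pfx {S : Set (List Bool)} (hS : (wg.induce S).Preconnected) (w : List Bool)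
    (hw : ¬ (w ∈ S ∧ ∃ u ∈ S, ∃ b, w = u ++ [b])) :
    (∀ u ∈ S, w <+: u) ∨ (∀ u ∈ S, ¬ w <+: u) := by
  by_cases h : ∃ u ∈ S, w <+: u
  · left
    obtain ⟨u, hu, huw⟩ := h
    intro v hv
    refine const hS (fun x => w <+: x.1) ?_ ⟨u, hu⟩ ⟨v, hv⟩ huw
    rintro ⟨x, hx⟩ ⟨y, hy⟩ hxy hwx
    rcases hxy with ⟨b, hb⟩ | ⟨b, hb⟩
    · have hb' : y = x ++ [b] := hb
      show w <+: y
      rw [hb']
      exact List.IsPrefix.trans hwx (List.prefix_append _ _)
    · have hb' : x = y ++ [b] := hb
      have hwx' : w <+: x := hwx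
      rw [hb', List.prefix_concat_iff] at hwx'
      rcases hwx' with h1 | h1
      · exact absurd ⟨by rw [h1, ← hb']; exact hx, y, hy, b, h1⟩ hw
      · exact h1
  · right
    push Not at h
    exact h

lemma len {S : Set (List Bool)} (hf : S.Finite) (hS : (wg.induce S).Preconnected)
    {u v : List Bool} (hu : u ∈ S) (hv : v ∈ S) : v.length < u.length + S.ncard := by
  by_contra hcon
  push Not at hcon
  have h1 : ∀ l, u.length ≤ l → l ≤ v.length → ∃ x ∈ S, x.length = l := by
    intro l hl1 hl2
    by_contra hno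
    push Not at hno
    have h2 := const hS (fun x => x.1.length < l) (by
      rintro ⟨x, hx⟩ ⟨y, hy⟩ hxy hxl
      have hxl' : x.length < l := hxl
      have hyl := hno y hy
      show y.length < l
      rcases hxy with ⟨b, hb⟩ | ⟨b, hb⟩
      · have hb' : y = x ++ [b] := hb
        have := congrArg List.length hb'
        rw [List.length_append, List.length_singleton] at this
        omega
      · have hb' : x = y ++ [b] := hb
        have := congrArg List.length hb'
        rw [List.length_append, List.length_singleton] at this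
        omega) ⟨u, hu⟩ ⟨v, hv⟩ (by
          have := hno u hu
          show u.length < l
          omega)
    have h3 : v.length < l := h2
    omega
  have h2 : Set.Icc u.length v.length ⊆ List.length '' S := by
    rintro l ⟨hl1, hl2⟩
    obtain ⟨x, hx, hxl⟩ := h1 l hl1 hl2
    exact ⟨x, hx, hxl⟩
  have h3 := Set.ncard_le_ncard h2 (hf.image _)
  have h4 : (List.length '' S).ncard ≤ S.ncard := Set.ncard_image_le hf
  have h5 : (Set.Icc u.length v.length).ncard = v.length + 1 - u.length := by
    rw [Set.ncard_eq_toFinset_card']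
    simp
  rw [h5] at h3
  have h6 : 0 < S.ncard := (Set.ncard_pos hf).2 ⟨u, hu⟩
  omega

/-- shifting -/
def shiftIso (p : List Bool) (S : Set (List Bool)) (h : ∀ u ∈ S, p <+: u) :
    (wg.induce {u | p ++ u ∈ S}) ≃g (wg.induce S) where
  toFun v := ⟨p ++ v.1, v.2⟩
  invFun u := ⟨u.1.drop p.length, by
    obtain ⟨w, hw⟩ := h u.1 u.2
    show p ++ u.1.drop p.length ∈ S
    rw [← hw, List.drop_left, hw]
    exact u.2⟩
  left_inv v := by
    apply Subtype.ext
    show (p ++ v.1).drop p.length = v.1
    exact List.drop_left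
  right_inv u := by
    obtain ⟨w, hw⟩ := h u.1 u.2
    apply Subtype.ext
    show p ++ u.1.drop p.length = u.1
    rw [← hw, List.drop_left]
  map_rel_iff' := by
    rintro ⟨u, hu⟩ ⟨v, hv⟩
    show ((∃ b, p ++ v = p ++ u ++ [b]) ∨ (∃ b, p ++ u = p ++ v ++ [b])) ↔
      ((∃ b, v = u ++ [b]) ∨ (∃ b, u = v ++ [b]))
    simp only [List.append_assoc, List.append_cancel_left_eq]

lemma U_shift {p : List Bool} {S : Set (List Bool)} (h : ∀ u ∈ S, p <+: u)
    (H : U {u | p ++ u ∈ S}) : U S :=
  isUnitDisk_of_inj (shiftIso p S h).symm (shiftIso p S h).symm.injective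
    (fun _ _ => ((shiftIso p S h).symm.map_rel_iff').symm) H

lemma pre_shift {p : List Bool} {S : Set (List Bool)} (h : ∀ u ∈ S, p <+: u)
    (H : (wg.induce S).Preconnected) : (wg.induce {u | p ++ u ∈ S}).Preconnected :=
  (shiftIso p S h).preconnected_iff.2 H

lemma ncard_shift {p : List Bool} {S : Set (List Bool)} (hf : S.Finite) :
    {u | p ++ u ∈ S}.Finite ∧ {u | p ++ u ∈ S}.ncard ≤ S.ncard := by
  have hinj : Function.Injective (fun u : List Bool => p ++ u) :=
    fun _ _ h => List.append_cancel_left h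
  have hsub : (fun u : List Bool => p ++ u) '' {u | p ++ u ∈ S} ⊆ S := by
    rintro _ ⟨u, hu, rfl⟩
    exact hu
  have h1 : {u | p ++ u ∈ S}.Finite := hf.preimage hinj.injOn
  refine ⟨h1, ?_⟩
  rw [← Set.ncard_image_of_injective _ hinj]
  exact Set.ncard_le_ncard hsub hf

lemma mem_ext (t : RTree) : ∀ (i : ℕ) (w : List Bool), w ∈ verts (ext i t) ↔
    (∃ j < i, w = List.replicate j false) ∨ ∃ u ∈ verts t, w = List.replicate i false ++ u
  | 0, w => by simp [ext]
  | i + 1, w => by
    have h : verts (ext (i + 1) t) = {[]} ∪ List.cons false '' verts (ext i t) := rfl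
    rw [h, Set.mem_union, Set.mem_singleton_iff, Set.mem_image]
    constructor
    · rintro (rfl | ⟨x, hx, rfl⟩)
      · exact Or.inl ⟨0, by omega, rfl⟩
      · rcases (mem_ext t i x).1 hx with ⟨j, hj, rfl⟩ | ⟨u, hu, rfl⟩
        · exact Or.inl ⟨j + 1, by omega, rfl⟩
        · exact Or.inr ⟨u, hu, rfl⟩
    · rintro (⟨j, hj, rfl⟩ | ⟨u, hu, rfl⟩)
      · cases j with
        | zero => exact Or.inl rfl
        | succ j =>
          exact Or.inr ⟨List.replicate j false, (mem_ext t i _).2 (Or.inl ⟨j, by omega, rfl⟩), rfl⟩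
      · exact Or.inr ⟨List.replicate i false ++ u, (mem_ext t i _).2 (Or.inr ⟨u, hu, rfl⟩), rfl⟩

lemma short_ext {t s : RTree} {i : ℕ} {w : List Bool} (hw : w ∈ verts (ext i t))
    (hl : w.length < i) : w ∈ verts (ext i s) := by
  rcases (mem_ext t i w).1 hw with ⟨j, hj, rfl⟩ | ⟨u, hu, rfl⟩
  · exact (mem_ext s i _).2 (Or.inl ⟨j, hj, rfl⟩)
  · rw [List.length_append, List.length_replicate] at hl
    omega

lemma mem_two {s t : RTree} {w : List Bool} : w ∈ verts (two s t) ↔
    w = [] ∨ (∃ u ∈ verts s, w = false :: u) ∨ (∃ u ∈ verts t, w = true :: u) := by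
  have h : verts (two s t) = {[]} ∪ (List.cons false '' verts s ∪ List.cons true '' verts t) := rfl
  rw [h, Set.mem_union, Set.mem_union, Set.mem_singleton_iff, Set.mem_image, Set.mem_image]
  constructor
  · rintro (h | ⟨u, hu, rfl⟩ | ⟨u, hu, rfl⟩)
    · exact Or.inl h
    · exact Or.inr (Or.inl ⟨u, hu, rfl⟩)
    · exact Or.inr (Or.inr ⟨u, hu, rfl⟩)
  · rintro (h | ⟨u, hu, rfl⟩ | ⟨u, hu, rfl⟩)
    · exact Or.inl h
    · exact Or.inr (Or.inl ⟨u, hu, rfl⟩)
    · exact Or.inr (Or.inr ⟨u, hu, rfl⟩)

lemma draw_spider {N : ℕ} (hN : 1 ≤ N) :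
    Draw (two (ext N leaf) (ext N leaf)) (fun x => x.2 ≤ N + 1) := by
  obtain ⟨M, rfl⟩ : ∃ M, N = M + 1 := ⟨N - 1, by omega⟩
  have h1 := draw_ext_right draw_leaf M
  have h2 := draw_ext_up draw_leaf (M + 1)
  have h3 := draw_two h1 h2 (by omega) (by omega)
  exact draw_mono h3 fun x hx => by
    have : x.2 ≤ 0 + (M + 1) + 1 := hx
    omega

/-- the local statement -/
lemma local_full {N : ℕ} (hN : 1 ≤ N) {b : RTree} {h : ℕ} (Hb : Draw b (fun x => x.2 ≤ h)) :
    ∀ (k i : ℕ) (S : Set (List Bool)), S ⊆ verts (ext i (full N b k)) → S.Finite →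
      (wg.induce S).Preconnected → S.ncard ≤ N → U S
  | 0, i, S, hS, _, _, _ => U_mono hS (U_verts (draw_ext_up Hb i))
  | k + 1, i, S, hS, hf, hc, hn => by
    set A := full N b k with hA
    have hfull : full N b (k + 1) = two (ext N A) (ext N A) := rfl
    rw [hfull] at hS
    set r := List.replicate i false with hr
    have hrl : r.length = i := List.length_replicate
    by_cases hrS : r ∈ S
    · refine U_mono ?_ (U_verts (draw_ext_up (draw_spider hN) i))
      intro u hu
      have hul := len hf hc hrS hu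
      rw [hrl] at hul
      rcases (mem_ext _ i u).1 (hS hu) with ⟨j, hj, rfl⟩ | ⟨w, hw, rfl⟩
      · exact (mem_ext _ i _).2 (Or.inl ⟨j, hj, rfl⟩)
      · rw [List.length_append, List.length_replicate] at hul
        refine (mem_ext _ i _).2 (Or.inr ⟨w, ?_, rfl⟩)
        rcases mem_two.1 hw with rfl | ⟨x, hx, rfl⟩ | ⟨x, hx, rfl⟩
        · exact mem_two.2 (Or.inl rfl)
        · rw [List.length_cons] at hul
          exact mem_two.2 (Or.inr (Or.inl ⟨x, short_ext hx (by omega), rfl⟩))
        · rw [List.length_cons] at hul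
          exact mem_two.2 (Or.inr (Or.inr ⟨x, short_ext hx (by omega), rfl⟩))
    · rcases pfx hc r (fun h => hrS h.1) with h1 | h1
      · have hne : ∀ c : Bool, ¬ ((r ++ [c]) ∈ S ∧ ∃ u ∈ S, ∃ b, r ++ [c] = u ++ [b]) := by
          rintro c ⟨-, u, hu, b, hb⟩
          have := (List.append_inj' hb rfl).1
          rw [← this] at hu
          exact hrS hu
        have key : ∀ c : Bool, (∀ u ∈ S, r ++ [c] <+: u) → U S := by
          intro c hcS
          apply U_shift hcS
          obtain ⟨f1, f2⟩ := ncard_shift (p := r ++ [c]) hf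
          apply local_full hN Hb k N _ ?_ f1 (pre_shift hcS hc) (f2.trans hn)
          intro u hu
          have hu' : r ++ [c] ++ u ∈ S := hu
          rcases (mem_ext _ i _).1 (hS hu') with ⟨j, hj, hj2⟩ | ⟨w, hw, hw2⟩
          · have := congrArg List.length hj2
            rw [List.length_append, List.length_append, hrl, List.length_replicate] at this
            omega
          · rw [← hr, List.append_assoc] at hw2
            have hw3 := List.append_cancel_left hw2
            rcases mem_two.1 hw with h0 | ⟨x, hx, h0⟩ | ⟨x, hx, h0⟩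
            · rw [h0] at hw3; simp at hw3
            · rw [h0] at hw3
              have : u = x := by simpa using (List.cons.inj hw3).2
              rw [this]; exact hx
            · rw [h0] at hw3
              have : u = x := by simpa using (List.cons.inj hw3).2
              rw [this]; exact hx
        rcases pfx hc (r ++ [false]) (hne false) with h2 | h2
        · exact key false h2
        · rcases pfx hc (r ++ [true]) (hne true) with h3 | h3
          · exact key true h3
          · refine U_mono (T := verts leaf) ?_ (U_verts draw_leaf)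
            intro u hu
            exfalso
            obtain ⟨w, hw⟩ := h1 u hu
            cases w with
            | nil =>
              rw [List.append_nil] at hw
              rw [← hw] at hu
              exact hrS hu
            | cons c w =>
              have h4 : r ++ [c] <+: u := ⟨w, by rw [← hw]; simp⟩
              cases c with
              | false => exact h2 u hu h4
              | true => exact h3 u hu h4
      · refine U_mono (T := verts (ext i leaf)) ?_ (U_verts (draw_ext_up draw_leaf i))
        intro u hu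
        rcases (mem_ext _ i u).1 (hS hu) with ⟨j, hj, rfl⟩ | ⟨w, hw, rfl⟩
        · exact (mem_ext _ i _).2 (Or.inl ⟨j, hj, rfl⟩)
        · exact absurd (List.prefix_append _ _) (h1 _ hu)

/-- words of a vertex set -/
def wordIso (t : RTree) (S : Set (verts t)) :
    (t.graph.induce S) ≃g (wg.induce (Subtype.val '' S : Set (List Bool))) where
  toFun u := ⟨u.1.1, ⟨u.1, u.2, rfl⟩⟩
  invFun w := ⟨⟨w.1, by obtain ⟨x, -, hx⟩ := w.2; rw [← hx]; exact x.2⟩, by
    obtain ⟨x, hx, hx2⟩ := w.2
    have : (⟨w.1, by rw [← hx2]; exact x.2⟩ : verts t) = x := Subtype.ext hx2.symm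
    rw [this]
    exact hx⟩
  left_inv _ := rfl
  right_inv _ := rfl
  map_rel_iff' := Iff.rfl

/-- For every `N ≥ 1` there is a tree with at most two children per vertex and at most `C N^2`
vertices which is not a unit disk graph, although each of its connected induced subgraphs with at
most `N` vertices is one. -/
theorem nonlocal : ∃ C : ℕ, ∀ N : ℕ, 1 ≤ N → ∃ t : RTree, Nat.card t.verts ≤ C * N ^ 2 ∧
    ¬ IsUnitDisk t.graph ∧
    ∀ S : Set t.verts, (t.graph.induce S).Connected → S.ncard ≤ N →
      IsUnitDisk (t.graph.induce S) := by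
  refine ⟨6946816, fun N hN => ⟨full N (comb N N) 16, ?_, ?_, ?_⟩⟩
  · rw [card_verts]
    have k1 := card_full N (comb N N) 16
    rw [card_comb] at k1
    have e1 : N * (N + 3) + 1 + (2 * N + 1) = N ^ 2 + 5 * N + 2 := by ring
    rw [e1] at k1
    have hsq : N ≤ N ^ 2 := by nlinarith
    norm_num at k1
    omega
  · intro H
    have k1 := packing _ ((isUnitDisk_graph _).2 H)
    have k2 := card_full N (comb N N) 16
    have k3 := height_comb N N
    rw [card_comb] at k2
    rw [height_full] at k1
    have k4 : 4 * (height (comb N N) + 16 * (N + 1)) + 1 ≤ 141 * N := by omega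
    have k5 : 2 * (4 * (height (comb N N) + 16 * (N + 1)) + 1) ^ 2 ≤ 2 * (141 * N) ^ 2 :=
      Nat.mul_le_mul_left 2 (Nat.pow_le_pow_left k4 2)
    have e1 : N * (N + 3) + 1 + (2 * N + 1) = N ^ 2 + 5 * N + 2 := by ring
    have e2 : 2 * (141 * N) ^ 2 = 39762 * N ^ 2 := by ring
    rw [e1] at k2
    rw [e2] at k5
    norm_num at k2
    omega
  · intro S hS hn
    have : Finite (full N (comb N N) 16).verts :=
      Finite.of_equiv _ (addrEquiv (full N (comb N N) 16))
    have hU : U (Subtype.val '' S) := by
      apply local_full hN (draw_comb N N) 16 0 _ ?_ (S.toFinite.image _)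
        ((wordIso _ S).preconnected_iff.1 hS.preconnected)
        (by rw [Set.ncard_image_of_injective _ Subtype.val_injective]; exact hn)
      rintro _ ⟨x, -, rfl⟩
      exact x.2
    exact isUnitDisk_of_inj (wordIso _ S) (wordIso _ S).injective
      (fun _ _ => ((wordIso _ S).map_rel_iff').symm) hU

end Pool.Agent.Lib.MP783262
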