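import Pool.Agent.Lib.MP_783262_lc.Local

/-!
Infinitely many minimal trees of maximum degree three which are not unit disk graphs.
-/

set_option autoImplicit false

namespace Pool.Agent.Lib.MP783262

open RTree

lemma wg_len {u v : List Bool} (h : wg.Adj u v) (hl : v.length ≤ u.length) :
    v = u.dropLast := by
  rcases h with ⟨b, rfl⟩ | ⟨b, rfl⟩
  · rw [List.length_append, List.length_singleton] at hl
    omega
  · rw [List.dropLast_concat]

lemma wg_len' {u v : List Bool} (h : wg.Adj u v) : v.length ≠ u.length := by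
  rcases h with ⟨b, rfl⟩ | ⟨b, rfl⟩
  · rw [List.length_append, List.length_singleton]; omega
  · rw [List.length_append, List.length_singleton]; omega

lemma wg_acyclic : wg.IsAcyclic := by
  classical
  intro v c hc
  have hne : c.support.toFinset.Nonempty := ⟨v, by simp⟩
  obtain ⟨u, hu, hmax⟩ := c.support.toFinset.exists_max_image List.length hne
  rw [List.mem_toFinset] at hu
  have hc' : (c.rotate u hu).IsCycle := SimpleGraph.Walk.IsCycle.rotate _ hc
  set c' := c.rotate u hu with hcc
  have hnn : ¬ c'.Nil := hc'.not_nil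
  have hmem : ∀ x ∈ c'.support, x.length ≤ u.length := by
    intro x hx
    apply hmax
    rw [List.mem_toFinset]
    rw [hcc] at hx
    exact (SimpleGraph.Walk.mem_support_rotate_iff c u hu).1 hx
  have h1 : c'.snd = u.dropLast :=
    wg_len (c'.adj_snd hnn) (hmem _ (c'.getVert_mem_support 1))
  have h2 : c'.penultimate = u.dropLast :=
    wg_len (c'.adj_penultimate hnn).symm (hmem _ (c'.getVert_mem_support _))
  exact hc'.snd_ne_penultimate (h1.trans h2.symm)

lemma wg_nbrs (u : List Bool) : wg.neighborSet u ⊆ {u.dropLast, u ++ [false], u ++ [true]} := by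
  intro v hv
  rcases hv with ⟨b, rfl⟩ | ⟨b, rfl⟩
  · cases b with
    | false => simp
    | true => simp
  · simp

lemma verts_closed : ∀ (t : RTree) (u : List Bool) (b : Bool), u ++ [b] ∈ verts t → u ∈ verts t
  | leaf, u, b, h => by
    have h' : u ++ [b] = [] := h
    simp at h'
  | one t, u, b, h => by
    rcases h with h | ⟨x, hx, h⟩
    · have h' : u ++ [b] = [] := h
      simp at h'
    · cases u with
      | nil => exact Or.inl rfl
      | cons c u =>
        rw [List.cons_append] at h
        obtain ⟨h1, h2⟩ := List.cons.inj h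
        rw [h2] at hx
        rw [← h1]
        exact Or.inr ⟨u, verts_closed t u b hx, rfl⟩
  | two s t, u, b, h => by
    cases u with
    | nil => exact Or.inl rfl
    | cons c u =>
      rw [List.cons_append] at h
      rcases mem_two.1 h with h | ⟨x, hx, h⟩ | ⟨x, hx, h⟩
      · exact absurd h (List.cons_ne_nil _ _)
      · obtain ⟨h1, h2⟩ := List.cons.inj h
        rw [← h2] at hx
        rw [h1]
        exact mem_two.2 (Or.inr (Or.inl ⟨u, verts_closed s u b hx, rfl⟩))
      · obtain ⟨h1, h2⟩ := List.cons.inj h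
        rw [← h2] at hx
        rw [h1]
        exact mem_two.2 (Or.inr (Or.inr ⟨u, verts_closed t u b hx, rfl⟩))

lemma nil_mem : ∀ t : RTree, [] ∈ verts t
  | leaf => rfl
  | one _ => Or.inl rfl
  | two _ _ => Or.inl rfl

lemma reach (t : RTree) (w : List Bool) :
    ∀ hw : w ∈ verts t, t.graph.Reachable ⟨[], nil_mem t⟩ ⟨w, hw⟩ := by
  induction w using List.reverseRecOn with
  | nil => exact fun _ => SimpleGraph.Reachable.refl _
  | append_singleton w b ih =>
    intro hw
    have hw' := verts_closed t w b hw
    refine (ih hw').trans (SimpleGraph.Adj.reachable ?_)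
    exact Or.inl ⟨b, rfl⟩

lemma graph_connected (t : RTree) : t.graph.Connected := by
  have : Nonempty (verts t) := ⟨⟨[], nil_mem t⟩⟩
  refine ⟨fun u v => ?_⟩
  exact (reach t u.1 u.2).symm.trans (reach t v.1 v.2)

lemma graph_acyclic (t : RTree) : t.graph.IsAcyclic :=
  SimpleGraph.IsAcyclic.comap (G' := wg) (G := t.graph)
    (f := ⟨fun u => u.1, fun h => h⟩) Subtype.val_injective wg_acyclic

/-- induced subgraphs of induced subgraphs -/
def subIso {V : Type} (G : SimpleGraph V) (S : Set V) (T : Set S) :
    ((G.induce S).induce T) ≃g (G.induce (Subtype.val '' T : Set V)) where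
  toFun u := ⟨u.1.1, ⟨u.1, u.2, rfl⟩⟩
  invFun w := ⟨⟨w.1, by obtain ⟨x, -, hx⟩ := w.2; rw [← hx]; exact x.2⟩, by
    obtain ⟨x, hx, hx2⟩ := w.2
    have : (⟨w.1, by rw [← hx2]; exact x.2⟩ : S) = x := Subtype.ext hx2.symm
    rw [this]
    exact hx⟩
  left_inv _ := rfl
  right_inv _ := rfl
  map_rel_iff' := Iff.rfl

/-- a finite graph is a unit disk graph if its components are -/
lemma of_components {V : Type} [Finite V] (G : SimpleGraph V)
    (H : ∀ K : G.ConnectedComponent, IsUnitDisk (G.induce K.supp)) : IsUnitDisk G := by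
  classical
  choose c hc using H
  obtain ⟨ι, hι⟩ : ∃ ι : G.ConnectedComponent → ℕ, Function.Injective ι := by
    have : Finite G.ConnectedComponent := Quot.finite _
    exact exists_injective_nat _
  let x : V → EuclideanSpace ℝ (Fin 2) := fun v => c (G.connectedComponentMk v) ⟨v, rfl⟩
  have key : ∀ (K : G.ConnectedComponent) (w : V) (hw : w ∈ K.supp), x w = c K ⟨w, hw⟩ := by
    intro K w hw
    have hw' : G.connectedComponentMk w = K := hw
    subst hw'
    rfl
  obtain ⟨B, hB⟩ := Metric.isBounded_iff.1 (Set.finite_range x).isBounded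
  have hB' : ∀ u v, dist (x u) (x v) ≤ B := fun u v => hB ⟨u, rfl⟩ ⟨v, rfl⟩
  set p : EuclideanSpace ℝ (Fin 2) := EuclideanSpace.single 0 1 with hp
  have hpn : ‖p‖ = 1 := by rw [hp, PiLp.norm_single]; simp
  refine ⟨fun v => x v + ((ι (G.connectedComponentMk v) : ℝ) * (B + 3)) • p,
    fun u v huv => ?_⟩
  rw [inter_iff]
  show G.Adj u v ↔ dist (x u + ((ι (G.connectedComponentMk u) : ℝ) * (B + 3)) • p)
    (x v + ((ι (G.connectedComponentMk v) : ℝ) * (B + 3)) • p) ≤ 2
  by_cases h : G.connectedComponentMk u = G.connectedComponentMk v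
  · rw [h, dist_add_right, key _ u h, key _ v rfl]
    have h1 := hc (G.connectedComponentMk v) ⟨u, h⟩ ⟨v, rfl⟩
      (fun h' => huv (congrArg Subtype.val h'))
    rw [inter_iff] at h1
    exact h1
  · constructor
    · intro hadj
      exact absurd (SimpleGraph.ConnectedComponent.connectedComponentMk_eq_of_adj hadj) h
    · intro hd
      exfalso
      have hne : ι (G.connectedComponentMk u) ≠ ι (G.connectedComponentMk v) :=
        fun h' => h (hι h')
      have hB0 : 0 ≤ B := dist_nonneg.trans (hB' u u)
      have h2 := hB' u v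
      rw [dist_eq_norm] at hd h2
      set a : ℝ := (ι (G.connectedComponentMk u) : ℝ) with ha
      set b : ℝ := (ι (G.connectedComponentMk v) : ℝ) with hb
      have h3 : 1 ≤ |a - b| := by
        have h4 : (1 : ℤ) ≤ |(ι (G.connectedComponentMk u) : ℤ)
            - (ι (G.connectedComponentMk v) : ℤ)| := by
          apply Int.one_le_abs
          intro h5
          apply hne
          omega
        have h5 : ((1 : ℤ) : ℝ) ≤ ((|(ι (G.connectedComponentMk u) : ℤ)
            - (ι (G.connectedComponentMk v) : ℤ)| : ℤ) : ℝ) := by exact_mod_cast h4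
        rw [Int.cast_abs] at h5
        push_cast at h5
        exact h5
      have e1 : ((a - b) * (B + 3)) • p
          = (x u + (a * (B + 3)) • p - (x v + (b * (B + 3)) • p)) - (x u - x v) := by
        rw [sub_mul, sub_smul]; abel
      have h6 : ‖((a - b) * (B + 3)) • p‖ ≤ 2 + B := by
        rw [e1]
        exact (norm_sub_le _ _).trans (add_le_add hd h2)
      rw [norm_smul, hpn, mul_one, Real.norm_eq_abs, abs_mul, abs_of_nonneg (by linarith : (0:ℝ) ≤ B + 3)] at h6
      nlinarith

lemma all_of_connected {V : Type} [Finite V] (G : SimpleGraph V)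
    (H : ∀ S : Set V, S ≠ Set.univ → (G.induce S).Connected → IsUnitDisk (G.induce S))
    (S : Set V) (hS : S ≠ Set.univ) : IsUnitDisk (G.induce S) := by
  apply of_components
  intro K
  have e := subIso G S K.supp
  refine isUnitDisk_of_inj e e.injective (fun _ _ => (e.map_rel_iff').symm)
    (H _ ?_ (e.connected_iff.1 K.connected_toSimpleGraph))
  intro h
  apply hS
  rw [Set.eq_univ_iff_forall]
  intro x
  have hx : x ∈ (Subtype.val '' K.supp : Set V) := by rw [h]; trivial
  obtain ⟨y, -, rfl⟩ := hx
  exact y.2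

/-- **Theorem.** There is `C` such that for every `N ≥ 1` there is a tree of maximum degree at most
three with more than `N` and at most `C N^2` vertices which is not a unit disk graph, although all
its proper induced subgraphs are. -/
theorem minimal_trees : ∃ C : ℕ, ∀ N : ℕ, 1 ≤ N →
    ∃ (V : Type) (_ : Fintype V) (G : SimpleGraph V), G.IsTree ∧
      (∀ v, (G.neighborSet v).ncard ≤ 3) ∧ N < Fintype.card V ∧ Fintype.card V ≤ C * N ^ 2 ∧
      ¬ IsUnitDisk G ∧ ∀ S : Set V, S ≠ Set.univ → IsUnitDisk (G.induce S) := by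
  classical
  obtain ⟨C, hC⟩ := nonlocal
  refine ⟨C, fun N hN => ?_⟩
  obtain ⟨t, h1, h2, h3⟩ := hC N hN
  have hfin : Finite t.verts := Finite.of_equiv _ (addrEquiv t)
  -- a smallest connected vertex set which is not a unit disk graph
  have hex : ∃ m : ℕ, ∃ S : Set t.verts, S.ncard = m ∧ (t.graph.induce S).Connected ∧
      ¬ IsUnitDisk (t.graph.induce S) := by
    refine ⟨_, Set.univ, rfl, ?_, ?_⟩
    · exact (SimpleGraph.induceUnivIso t.graph).connected_iff.2 (graph_connected t)
    · intro H
      exact h2 (isUnitDisk_of_inj (SimpleGraph.induceUnivIso t.graph).symm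
        (SimpleGraph.induceUnivIso t.graph).symm.injective
        (fun _ _ => ((SimpleGraph.induceUnivIso t.graph).symm.map_rel_iff').symm) H)
  obtain ⟨S, hS1, hS2, hS3⟩ := Nat.find_spec hex
  have hmin : ∀ T : Set t.verts, T.ncard < S.ncard → (t.graph.induce T).Connected →
      IsUnitDisk (t.graph.induce T) := by
    intro T hT hTc
    by_contra hcon
    rw [hS1] at hT
    exact Nat.find_min hex hT ⟨T, rfl, hTc, hcon⟩
  have hSfin : Fintype S := Fintype.ofFinite S
  have hcard : Fintype.card S = S.ncard := by
    rw [← Nat.card_eq_fintype_card]; rfl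
  refine ⟨S, hSfin, t.graph.induce S, ⟨hS2, ?_⟩, ?_, ?_, ?_, hS3, all_of_connected _ ?_⟩
  · exact (graph_acyclic t).embedding (SimpleGraph.Embedding.induce S)
  · intro v
    have hinj : Function.Injective (fun u : S => u.1.1) := fun a b h =>
      Subtype.ext (Subtype.ext h)
    rw [← Set.ncard_image_of_injective _ hinj]
    have hsub : (fun u : S => u.1.1) '' ((t.graph.induce S).neighborSet v) ⊆
        {v.1.1.dropLast, v.1.1 ++ [false], v.1.1 ++ [true]} := by
      rintro _ ⟨u, hu, rfl⟩
      exact wg_nbrs v.1.1 hu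
    refine (Set.ncard_le_ncard hsub (Set.toFinite _)).trans ?_
    exact (Set.ncard_insert_le _ _).trans (Nat.succ_le_succ (Set.ncard_insert_le _ _ |>.trans
      (Nat.succ_le_succ (Set.ncard_singleton _).le)))
  · rw [hcard]
    by_contra hcon
    push Not at hcon
    exact hS3 (h3 S hS2 hcon)
  · rw [hcard]
    exact (Set.ncard_le_card S).trans h1
  · intro T hT hTc
    have e := subIso t.graph S T
    have hlt : (Subtype.val '' T : Set t.verts).ncard < S.ncard := by
      apply Set.ncard_lt_ncard _ (Set.toFinite _)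
      refine ⟨by rintro _ ⟨x, -, rfl⟩; exact x.2, fun hsub => hT ?_⟩
      rw [Set.eq_univ_iff_forall]
      intro x
      obtain ⟨y, hy, hyx⟩ := hsub x.2
      rw [← Subtype.ext hyx]
      exact hy
    exact isUnitDisk_of_inj e e.injective (fun _ _ => (e.map_rel_iff').symm)
      (hmin _ hlt (e.connected_iff.1 hTc))

end Pool.Agent.Lib.MP783262
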