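import Mathlib
import Pool.Agent.Lib.MP_783262_lc.Defs

/-!
Proofs for MP_783262_lc StateLowerBound.
-/

set_option autoImplicit false

namespace Pool.Agent.Lib.MP783262

namespace RTree

/-- The vertices: `none` is the root of `one t` and of `two s t`. -/
def Vert : RTree → Type
  | leaf => Unit
  | one t => Option (Vert t)
  | two s t => Option (Vert s ⊕ Vert t)

/-- The root. -/
def root : (t : RTree) → Vert t
  | leaf => ()
  | one _ => (none : Option _)
  | two _ _ => (none : Option _)

/-- Adjacency: the root is adjacent to the roots of the subtrees at its children. -/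
def Adj : (t : RTree) → Vert t → Vert t → Prop
  | leaf => fun _ _ => False
  | one t => fun (u v : Option (Vert t)) =>
    match u, v with
    | none, none => False
    | none, some v => v = root t
    | some u, none => u = root t
    | some u, some v => Adj t u v
  | two s t => fun (u v : Option (Vert s ⊕ Vert t)) =>
    match u, v with
    | none, none => False
    | none, some (Sum.inl v) => v = root s
    | none, some (Sum.inr v) => v = root t
    | some (Sum.inl u), none => u = root s
    | some (Sum.inr u), none => u = root t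
    | some (Sum.inl u), some (Sum.inl v) => Adj s u v
    | some (Sum.inr u), some (Sum.inr v) => Adj t u v
    | some (Sum.inl _), some (Sum.inr _) => False
    | some (Sum.inr _), some (Sum.inl _) => False

lemma adj_symm : ∀ (t : RTree) (u v : Vert t), Adj t u v → Adj t v u
  | leaf, _, _ => id
  | one _, (none : Option _), (none : Option _) => id
  | one _, (none : Option _), (some _ : Option _) => id
  | one _, (some _ : Option _), (none : Option _) => id
  | one t, (some u : Option _), (some v : Option _) => adj_symm t u v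
  | two _ _, (none : Option _), (none : Option _) => id
  | two _ _, (none : Option _), (some (Sum.inl _) : Option _) => id
  | two _ _, (none : Option _), (some (Sum.inr _) : Option _) => id
  | two _ _, (some (Sum.inl _) : Option _), (none : Option _) => id
  | two _ _, (some (Sum.inr _) : Option _), (none : Option _) => id
  | two s _, (some (Sum.inl u) : Option _), (some (Sum.inl v) : Option _) => adj_symm s u v
  | two _ t, (some (Sum.inr u) : Option _), (some (Sum.inr v) : Option _) => adj_symm t u v
  | two _ _, (some (Sum.inl _) : Option _), (some (Sum.inr _) : Option _) => id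
  | two _ _, (some (Sum.inr _) : Option _), (some (Sum.inl _) : Option _) => id

lemma adj_irrefl : ∀ (t : RTree) (u : Vert t), ¬ Adj t u u
  | leaf, _ => id
  | one _, (none : Option _) => id
  | one t, (some u : Option _) => adj_irrefl t u
  | two _ _, (none : Option _) => id
  | two s _, (some (Sum.inl u) : Option _) => adj_irrefl s u
  | two _ t, (some (Sum.inr u) : Option _) => adj_irrefl t u

/-- The tree as a graph. -/
def graph' (t : RTree) : SimpleGraph (Vert t) where
  Adj := Adj t
  symm := ⟨fun u v => adj_symm t u v⟩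
  loopless := ⟨fun u => adj_irrefl t u⟩

/-! ### Words -/

/-- The word of a vertex. -/
def addr : (t : RTree) → Vert t → List Bool
  | leaf => fun _ => []
  | one t => fun (v : Option (Vert t)) => Option.elim v [] (fun v => false :: addr t v)
  | two s t => fun (v : Option (Vert s ⊕ Vert t)) =>
    Option.elim v [] (Sum.elim (fun v => false :: addr s v) (fun v => true :: addr t v))

lemma addr_root : ∀ t : RTree, addr t (root t) = []
  | leaf => rfl
  | one _ => rfl
  | two _ _ => rfl

lemma addr_inj : ∀ t : RTree, Function.Injective (addr t)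
  | leaf => fun _ _ _ => rfl
  | one t => by
    have ih := addr_inj t
    rintro (_ | u) (_ | v) h
    · rfl
    · exact absurd h (List.cons_ne_nil _ _).symm
    · exact absurd h (List.cons_ne_nil _ _)
    · have h' : false :: addr t u = false :: addr t v := h
      exact congrArg some (ih (List.cons.inj h').2)
  | two s t => by
    have ihs := addr_inj s
    have iht := addr_inj t
    rintro (_ | u | u) (_ | v | v) h
    · rfl
    · exact absurd h (List.cons_ne_nil _ _).symm
    · exact absurd h (List.cons_ne_nil _ _).symm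
    · exact absurd h (List.cons_ne_nil _ _)
    · have h' : false :: addr s u = false :: addr s v := h
      exact congrArg (fun x => some (Sum.inl x)) (ihs (List.cons.inj h').2)
    · have h' : false :: addr s u = true :: addr t v := h
      exact absurd (List.cons.inj h').1 (by decide)
    · exact absurd h (List.cons_ne_nil _ _)
    · have h' : true :: addr t u = false :: addr s v := h
      exact absurd (List.cons.inj h').1 (by decide)
    · have h' : true :: addr t u = true :: addr t v := h
      exact congrArg (fun x => some (Sum.inr x)) (iht (List.cons.inj h').2)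

lemma mem_verts : ∀ (t : RTree) (w : List Bool), w ∈ verts t ↔ ∃ v, addr t v = w
  | leaf, w => ⟨fun h => ⟨(), h.symm⟩, fun ⟨_, h⟩ => h.symm⟩
  | one t, w => by
    constructor
    · rintro (h | ⟨x, hx, h⟩)
      · exact ⟨(none : Option (Vert t)), (show w = [] from h).symm⟩
      · obtain ⟨v, hv⟩ := (mem_verts t x).1 hx
        refine ⟨(some v : Option (Vert t)), ?_⟩
        change false :: addr t v = w
        rw [hv]; exact h
    · rintro ⟨(_ | v), h⟩
      · exact Or.inl h.symm
      · exact Or.inr ⟨addr t v, (mem_verts t _).2 ⟨v, rfl⟩, h⟩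
  | two s t, w => by
    constructor
    · rintro (h | ⟨x, hx, h⟩ | ⟨x, hx, h⟩)
      · exact ⟨(none : Option (Vert s ⊕ Vert t)), (show w = [] from h).symm⟩
      · obtain ⟨v, hv⟩ := (mem_verts s x).1 hx
        refine ⟨(some (Sum.inl v) : Option (Vert s ⊕ Vert t)), ?_⟩
        change false :: addr s v = w
        rw [hv]; exact h
      · obtain ⟨v, hv⟩ := (mem_verts t x).1 hx
        refine ⟨(some (Sum.inr v) : Option (Vert s ⊕ Vert t)), ?_⟩
        change true :: addr t v = w
        rw [hv]; exact h
    · rintro ⟨(_ | v | v), h⟩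
      · exact Or.inl h.symm
      · exact Or.inr (Or.inl ⟨addr s v, (mem_verts s _).2 ⟨v, rfl⟩, h⟩)
      · exact Or.inr (Or.inr ⟨addr t v, (mem_verts t _).2 ⟨v, rfl⟩, h⟩)

/-- `v` is a child of `u`, for words. -/
def Ch (u v : List Bool) : Prop := ∃ b, v = u ++ [b]

lemma ch_cons (x : Bool) (u v : List Bool) : Ch (x :: u) (x :: v) ↔ Ch u v := by
  simp [Ch]

lemma ch_nil (x : Bool) (v : List Bool) : Ch [] (x :: v) ↔ v = [] := by
  simp only [Ch, List.nil_append, List.cons.injEq]
  constructor
  · rintro ⟨b, -, h⟩; exact h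
  · intro h; exact ⟨x, rfl, h⟩

lemma not_ch_nil (u : List Bool) : ¬ Ch u [] := by
  simp [Ch]

lemma not_ch_ne {x y : Bool} (h : x ≠ y) (u v : List Bool) : ¬ Ch (x :: u) (y :: v) := by
  rintro ⟨b, hb⟩
  rw [List.cons_append] at hb
  exact h (List.cons.inj hb).1.symm

lemma addr_adj : ∀ (t : RTree) (u v : Vert t),
    Adj t u v ↔ (Ch (addr t u) (addr t v) ∨ Ch (addr t v) (addr t u))
  | leaf, _, _ => ⟨False.elim, fun h => h.elim (not_ch_nil _) (not_ch_nil _)⟩
  | one t, (none : Option _), (none : Option _) =>
    ⟨False.elim, fun h => h.elim (not_ch_nil _) (not_ch_nil _)⟩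
  | one t, (none : Option _), (some v : Option _) => by
    change v = root t ↔ (Ch [] (false :: addr t v) ∨ Ch (false :: addr t v) [])
    rw [ch_nil, ← addr_root t, (addr_inj t).eq_iff]
    exact ⟨Or.inl, fun h => h.elim id fun h => absurd h (by rw [addr_root]; exact not_ch_nil _)⟩
  | one t, (some u : Option _), (none : Option _) => by
    change u = root t ↔ (Ch (false :: addr t u) [] ∨ Ch [] (false :: addr t u))
    rw [ch_nil, ← addr_root t, (addr_inj t).eq_iff]
    exact ⟨Or.inr, fun h => h.elim (fun h => absurd h (by rw [addr_root]; exact not_ch_nil _)) id⟩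
  | one t, (some u : Option _), (some v : Option _) => by
    change Adj t u v ↔ (Ch (false :: addr t u) (false :: addr t v)
      ∨ Ch (false :: addr t v) (false :: addr t u))
    rw [ch_cons, ch_cons]
    exact addr_adj t u v
  | two s t, (none : Option _), (none : Option _) =>
    ⟨False.elim, fun h => h.elim (not_ch_nil _) (not_ch_nil _)⟩
  | two s t, (none : Option _), (some (Sum.inl v) : Option _) => by
    change v = root s ↔ (Ch [] (false :: addr s v) ∨ Ch (false :: addr s v) [])
    rw [ch_nil, ← addr_root s, (addr_inj s).eq_iff]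
    exact ⟨Or.inl, fun h => h.elim id fun h => absurd h (by rw [addr_root]; exact not_ch_nil _)⟩
  | two s t, (none : Option _), (some (Sum.inr v) : Option _) => by
    change v = root t ↔ (Ch [] (true :: addr t v) ∨ Ch (true :: addr t v) [])
    rw [ch_nil, ← addr_root t, (addr_inj t).eq_iff]
    exact ⟨Or.inl, fun h => h.elim id fun h => absurd h (by rw [addr_root]; exact not_ch_nil _)⟩
  | two s t, (some (Sum.inl u) : Option _), (none : Option _) => by
    change u = root s ↔ (Ch (false :: addr s u) [] ∨ Ch [] (false :: addr s u))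
    rw [ch_nil, ← addr_root s, (addr_inj s).eq_iff]
    exact ⟨Or.inr, fun h => h.elim (fun h => absurd h (by rw [addr_root]; exact not_ch_nil _)) id⟩
  | two s t, (some (Sum.inr u) : Option _), (none : Option _) => by
    change u = root t ↔ (Ch (true :: addr t u) [] ∨ Ch [] (true :: addr t u))
    rw [ch_nil, ← addr_root t, (addr_inj t).eq_iff]
    exact ⟨Or.inr, fun h => h.elim (fun h => absurd h (by rw [addr_root]; exact not_ch_nil _)) id⟩
  | two s t, (some (Sum.inl u) : Option _), (some (Sum.inl v) : Option _) => by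
    change Adj s u v ↔ (Ch (false :: addr s u) (false :: addr s v)
      ∨ Ch (false :: addr s v) (false :: addr s u))
    rw [ch_cons, ch_cons]
    exact addr_adj s u v
  | two s t, (some (Sum.inr u) : Option _), (some (Sum.inr v) : Option _) => by
    change Adj t u v ↔ (Ch (true :: addr t u) (true :: addr t v)
      ∨ Ch (true :: addr t v) (true :: addr t u))
    rw [ch_cons, ch_cons]
    exact addr_adj t u v
  | two s t, (some (Sum.inl u) : Option _), (some (Sum.inr v) : Option _) =>
    ⟨False.elim, fun h => h.elim (not_ch_ne (by decide) _ _) (not_ch_ne (by decide) _ _)⟩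
  | two s t, (some (Sum.inr u) : Option _), (some (Sum.inl v) : Option _) =>
    ⟨False.elim, fun h => h.elim (not_ch_ne (by decide) _ _) (not_ch_ne (by decide) _ _)⟩

/-- Vertices and words. -/
noncomputable def addrEquiv (t : RTree) : Vert t ≃ verts t :=
  Equiv.ofBijective (fun v => ⟨addr t v, (mem_verts t _).2 ⟨v, rfl⟩⟩)
    ⟨fun _ _ h => addr_inj t (congrArg Subtype.val h),
      fun w => by
        obtain ⟨v, hv⟩ := (mem_verts t w.1).1 w.2
        exact ⟨v, Subtype.ext hv⟩⟩

lemma card_verts (t : RTree) : Nat.card (verts t) = Nat.card (Vert t) :=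
  (Nat.card_congr (addrEquiv t)).symm

end RTree

open RTree

lemma isUnitDisk_congr {V W : Type} {G : SimpleGraph V} {H : SimpleGraph W} (e : V ≃ W)
    (h : ∀ u v, G.Adj u v ↔ H.Adj (e u) (e v)) : IsUnitDisk G ↔ IsUnitDisk H := by
  constructor
  · rintro ⟨c, hc⟩
    refine ⟨fun w => c (e.symm w), fun u v huv => ?_⟩
    have h1 := hc (e.symm u) (e.symm v) (fun h => huv (e.symm.injective h))
    rw [h, e.apply_symm_apply, e.apply_symm_apply] at h1
    exact h1
  · rintro ⟨c, hc⟩
    refine ⟨fun v => c (e v), fun u v huv => ?_⟩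
    have h1 := hc (e u) (e v) (fun h => huv (e.injective h))
    rw [← h] at h1
    exact h1

lemma isUnitDisk_graph (t : RTree) : IsUnitDisk t.graph' ↔ IsUnitDisk t.graph := by
  apply isUnitDisk_congr (addrEquiv t)
  intro u v
  exact addr_adj t u v

/-! ### Drawings in the grid -/

/-- The grid points `a` and `b` are equal or at distance one. -/
def near (a b : ℕ × ℕ) : Prop :=
  (a.1 = b.1 ∧ a.2 ≤ b.2 + 1 ∧ b.2 ≤ a.2 + 1) ∨ (a.2 = b.2 ∧ a.1 ≤ b.1 + 1 ∧ b.1 ≤ a.1 + 1)

/-- `t` is an induced subgraph of the grid, with root `(0,0)` and all vertices in `Q`. -/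
def Draw (t : RTree) (Q : ℕ × ℕ → Prop) : Prop :=
  ∃ p : Vert t → ℕ × ℕ, p (root t) = (0, 0) ∧ (∀ v, Q (p v)) ∧ Function.Injective p ∧
    ∀ u v, u ≠ v → (Adj t u v ↔ near (p u) (p v))

lemma draw_mono {t : RTree} {Q Q' : ℕ × ℕ → Prop} (h : Draw t Q) (hQ : ∀ x, Q x → Q' x) :
    Draw t Q' := by
  obtain ⟨p, h1, h2, h3, h4⟩ := h
  exact ⟨p, h1, fun v => hQ _ (h2 v), h3, h4⟩

lemma draw_leaf : Draw leaf (fun x => x.2 ≤ 0) := by
  refine ⟨fun _ => (0, 0), rfl, fun _ => le_refl _, fun u v _ => rfl, fun u v h => ?_⟩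
  exact absurd rfl h

/-- Adding a root on the left. -/
lemma draw_right {t : RTree} {h : ℕ} (H : Draw t (fun x => x.2 ≤ h)) :
    Draw (one t) (fun x => x.2 ≤ h ∧ (x.1 = 0 → x.2 = 0)) := by
  obtain ⟨p, h1, h2, h3, h4⟩ := H
  have hr : ∀ v, p v = (0, 0) → v = root t := fun v hv => h3 (hv.trans h1.symm)
  refine ⟨fun v : Option (Vert t) => Option.elim v (0, 0) (fun v => ((p v).1 + 1, (p v).2)),
    rfl, ?_, ?_, ?_⟩
  · rintro (_ | v)
    · exact ⟨Nat.zero_le _, fun _ => rfl⟩
    · refine ⟨h2 v, fun h => ?_⟩
      exact absurd h (Nat.succ_ne_zero _)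
  · rintro (_ | u) (_ | v) huv
    · rfl
    · exact absurd (congrArg Prod.fst huv) (Nat.succ_ne_zero _).symm
    · exact absurd (congrArg Prod.fst huv) (Nat.succ_ne_zero _)
    · have e0 : ((p u).1 + 1, (p u).2) = ((p v).1 + 1, (p v).2) := huv
      have e1 : (p u).1 = (p v).1 := Nat.succ_injective (Prod.mk.inj e0).1
      have e2 : (p u).2 = (p v).2 := (Prod.mk.inj e0).2
      exact congrArg some (h3 (Prod.ext e1 e2))
  · rintro (_ | u) (_ | v) huv
    · exact absurd rfl huv
    · change v = root t ↔ near (0, 0) ((p v).1 + 1, (p v).2)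
      constructor
      · rintro rfl
        rw [h1]; unfold near; simp
      · intro hn
        apply hr
        unfold near at hn
        ext <;> simp only at hn ⊢ <;> omega
    · change u = root t ↔ near ((p u).1 + 1, (p u).2) (0, 0)
      constructor
      · rintro rfl
        rw [h1]; unfold near; simp
      · intro hn
        apply hr
        unfold near at hn
        ext <;> simp only at hn ⊢ <;> omega
    · change Adj t u v ↔ near ((p u).1 + 1, (p u).2) ((p v).1 + 1, (p v).2)
      rw [h4 u v (fun h => huv (congrArg some h))]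
      unfold near
      simp only
      omega

/-- Adding a root below. -/
lemma draw_up {t : RTree} {h m : ℕ} (H : Draw t (fun x => x.2 ≤ h ∧ (x.1 = 0 ∨ m ≤ x.2))) :
    Draw (one t) (fun x => x.2 ≤ h + 1 ∧ (x.1 = 0 ∨ m + 1 ≤ x.2)) := by
  obtain ⟨p, h1, h2, h3, h4⟩ := H
  have hr : ∀ v, p v = (0, 0) → v = root t := fun v hv => h3 (hv.trans h1.symm)
  refine ⟨fun v : Option (Vert t) => Option.elim v (0, 0) (fun v => ((p v).1, (p v).2 + 1)),
    rfl, ?_, ?_, ?_⟩
  · rintro (_ | v)
    · exact ⟨Nat.zero_le _, Or.inl rfl⟩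
    · obtain ⟨g1, g2⟩ := h2 v
      refine ⟨Nat.succ_le_succ g1, ?_⟩
      rcases g2 with g2 | g2
      · exact Or.inl g2
      · exact Or.inr (Nat.succ_le_succ g2)
  · rintro (_ | u) (_ | v) huv
    · rfl
    · exact absurd (congrArg Prod.snd huv) (Nat.succ_ne_zero _).symm
    · exact absurd (congrArg Prod.snd huv) (Nat.succ_ne_zero _)
    · have e0 : ((p u).1, (p u).2 + 1) = ((p v).1, (p v).2 + 1) := huv
      have e1 : (p u).1 = (p v).1 := (Prod.mk.inj e0).1
      have e2 : (p u).2 = (p v).2 := Nat.succ_injective (Prod.mk.inj e0).2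
      exact congrArg some (h3 (Prod.ext e1 e2))
  · rintro (_ | u) (_ | v) huv
    · exact absurd rfl huv
    · change v = root t ↔ near (0, 0) ((p v).1, (p v).2 + 1)
      constructor
      · rintro rfl
        rw [h1]; unfold near; simp
      · intro hn
        apply hr
        unfold near at hn
        ext <;> simp only at hn ⊢ <;> omega
    · change u = root t ↔ near ((p u).1, (p u).2 + 1) (0, 0)
      constructor
      · rintro rfl
        rw [h1]; unfold near; simp
      · intro hn
        apply hr
        unfold near at hn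
        ext <;> simp only at hn ⊢ <;> omega
    · change Adj t u v ↔ near ((p u).1, (p u).2 + 1) ((p v).1, (p v).2 + 1)
      rw [h4 u v (fun h => huv (congrArg some h))]
      unfold near
      simp only
      omega

/-- Joining a drawing to the right and a drawing above. -/
lemma draw_two {s t : RTree} {h h' m : ℕ}
    (H : Draw s (fun x => x.2 ≤ h ∧ (x.1 = 0 → x.2 = 0)))
    (H' : Draw t (fun x => x.2 ≤ h' ∧ (x.1 = 0 ∨ m ≤ x.2))) (hm : h + 1 ≤ m) (hh : h ≤ h' + 1) :
    Draw (two s t) (fun x => x.2 ≤ h' + 1) := by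
  obtain ⟨p, h1, h2, h3, h4⟩ := H
  obtain ⟨p', h1', h2', h3', h4'⟩ := H'
  have hr : ∀ v, p v = (0, 0) → v = root s := fun v hv => h3 (hv.trans h1.symm)
  have hr' : ∀ v, p' v = (0, 0) → v = root t := fun v hv => h3' (hv.trans h1'.symm)
  have key : ∀ u v, ¬ near ((p u).1 + 1, (p u).2) ((p' v).1, (p' v).2 + 1) := by
    intro u v hn
    obtain ⟨g1, g2⟩ := h2 u
    obtain ⟨g3, g4⟩ := h2' v
    unfold near at hn
    simp only at hn g1 g2 g3 g4
    omega
  have key' : ∀ u v, ¬ near ((p' v).1, (p' v).2 + 1) ((p u).1 + 1, (p u).2) := by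
    intro u v hn
    apply key u v
    unfold near at hn ⊢
    simp only at hn ⊢
    omega
  refine ⟨fun v : Option (Vert s ⊕ Vert t) => Option.elim v (0, 0)
    (Sum.elim (fun v => ((p v).1 + 1, (p v).2)) (fun v => ((p' v).1, (p' v).2 + 1))),
    rfl, ?_, ?_, ?_⟩
  · rintro (_ | v | v)
    · exact Nat.zero_le _
    · exact (h2 v).1.trans hh
    · exact Nat.succ_le_succ (h2' v).1
  · rintro (_ | u | u) (_ | v | v) huv
    · rfl
    · exact absurd (congrArg Prod.fst huv) (Nat.succ_ne_zero _).symm
    · exact absurd (congrArg Prod.snd huv) (Nat.succ_ne_zero _).symm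
    · exact absurd (congrArg Prod.fst huv) (Nat.succ_ne_zero _)
    · have e0 : ((p u).1 + 1, (p u).2) = ((p v).1 + 1, (p v).2) := huv
      have e1 : (p u).1 = (p v).1 := Nat.succ_injective (Prod.mk.inj e0).1
      have e2 : (p u).2 = (p v).2 := (Prod.mk.inj e0).2
      exact congrArg (fun x => some (Sum.inl x)) (h3 (Prod.ext e1 e2))
    · exfalso
      apply key u v
      have e : ((p u).1 + 1, (p u).2) = ((p' v).1, (p' v).2 + 1) := huv
      rw [e]; unfold near; simp
    · exact absurd (congrArg Prod.snd huv) (Nat.succ_ne_zero _)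
    · exfalso
      apply key v u
      have e : ((p' u).1, (p' u).2 + 1) = ((p v).1 + 1, (p v).2) := huv
      rw [e]; unfold near; simp
    · have e0 : ((p' u).1, (p' u).2 + 1) = ((p' v).1, (p' v).2 + 1) := huv
      have e1 : (p' u).1 = (p' v).1 := (Prod.mk.inj e0).1
      have e2 : (p' u).2 = (p' v).2 := Nat.succ_injective (Prod.mk.inj e0).2
      exact congrArg (fun x => some (Sum.inr x)) (h3' (Prod.ext e1 e2))
  · rintro (_ | u | u) (_ | v | v) huv
    · exact absurd rfl huv
    · change v = root s ↔ near (0, 0) ((p v).1 + 1, (p v).2)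
      constructor
      · rintro rfl
        rw [h1]; unfold near; simp
      · intro hn
        apply hr
        unfold near at hn
        ext <;> simp only at hn ⊢ <;> omega
    · change v = root t ↔ near (0, 0) ((p' v).1, (p' v).2 + 1)
      constructor
      · rintro rfl
        rw [h1']; unfold near; simp
      · intro hn
        apply hr'
        unfold near at hn
        ext <;> simp only at hn ⊢ <;> omega
    · change u = root s ↔ near ((p u).1 + 1, (p u).2) (0, 0)
      constructor
      · rintro rfl
        rw [h1]; unfold near; simp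
      · intro hn
        apply hr
        unfold near at hn
        ext <;> simp only at hn ⊢ <;> omega
    · change Adj s u v ↔ near ((p u).1 + 1, (p u).2) ((p v).1 + 1, (p v).2)
      rw [h4 u v (fun h => huv (congrArg (fun x => some (Sum.inl x)) h))]
      unfold near
      simp only
      omega
    · exact ⟨False.elim, fun hn => key u v hn⟩
    · change u = root t ↔ near ((p' u).1, (p' u).2 + 1) (0, 0)
      constructor
      · rintro rfl
        rw [h1']; unfold near; simp
      · intro hn
        apply hr'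
        unfold near at hn
        ext <;> simp only at hn ⊢ <;> omega
    · exact ⟨False.elim, fun hn => key' v u hn⟩
    · change Adj t u v ↔ near ((p' u).1, (p' u).2 + 1) ((p' v).1, (p' v).2 + 1)
      rw [h4' u v (fun h => huv (congrArg (fun x => some (Sum.inr x)) h))]
      unfold near
      simp only
      omega

/-- `ext i t`: a path with `i` vertices ending at the root of `t`. -/
def ext : ℕ → RTree → RTree
  | 0, t => t
  | i + 1, t => one (ext i t)

lemma draw_ext_right {t : RTree} {h : ℕ} (H : Draw t (fun x => x.2 ≤ h)) :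
    ∀ i : ℕ, Draw (ext (i + 1) t) (fun x => x.2 ≤ h ∧ (x.1 = 0 → x.2 = 0))
  | 0 => draw_right H
  | i + 1 => draw_right (draw_mono (draw_ext_right H i) fun _ hx => hx.1)

lemma draw_ext_up {t : RTree} {h : ℕ} (H : Draw t (fun x => x.2 ≤ h)) :
    ∀ i : ℕ, Draw (ext i t) (fun x => x.2 ≤ h + i ∧ (x.1 = 0 ∨ i ≤ x.2))
  | 0 => draw_mono H fun _ hx => ⟨hx, Or.inr (Nat.zero_le _)⟩
  | i + 1 => draw_up (draw_ext_up H i)

lemma eval_ext {S : Type} (a : S) (f : S → S) (g : S → S → S) (t : RTree) :
    ∀ i : ℕ, eval a f g (ext i t) = f^[i] (eval a f g t)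
  | 0 => rfl
  | i + 1 => by
    rw [Function.iterate_succ_apply', ← eval_ext a f g t i]
    rfl

/-! ### From drawings to unit disks -/

lemma inter_iff (x y : EuclideanSpace ℝ (Fin 2)) :
    (Metric.closedBall x 1 ∩ Metric.closedBall y 1).Nonempty ↔ dist x y ≤ 2 := by
  rw [← Set.not_disjoint_iff_nonempty_inter,
    disjoint_closedBall_closedBall_iff (by norm_num) (by norm_num), not_lt]
  norm_num

lemma int_sq_le_one {x : ℤ} (h : x ^ 2 ≤ 1) : -1 ≤ x ∧ x ≤ 1 := by
  constructor <;> nlinarith

lemma isUnitDisk_of_draw {t : RTree} {Q : ℕ × ℕ → Prop} (H : Draw t Q) : IsUnitDisk t.graph' := by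
  obtain ⟨p, -, -, -, h4⟩ := H
  let e : ℕ × ℕ → EuclideanSpace ℝ (Fin 2) := fun a => !₂[(2 * (a.1 : ℝ)), (2 * (a.2 : ℝ))]
  refine ⟨fun v => e (p v), fun u v huv => ?_⟩
  rw [inter_iff]
  change Adj t u v ↔ dist (e (p u)) (e (p v)) ≤ 2
  rw [h4 u v huv, EuclideanSpace.dist_eq, Fin.sum_univ_two]
  generalize p u = a
  generalize p v = b
  obtain ⟨a1, a2⟩ := a
  obtain ⟨b1, b2⟩ := b
  rw [Real.sqrt_le_iff, Real.dist_eq, Real.dist_eq, sq_abs, sq_abs]
  change near (a1, a2) (b1, b2) ↔ 0 ≤ (2 : ℝ) ∧
    (2 * (a1 : ℝ) - 2 * (b1 : ℝ)) ^ 2 + (2 * (a2 : ℝ) - 2 * (b2 : ℝ)) ^ 2 ≤ 2 ^ 2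
  have e1 : (0 ≤ (2 : ℝ) ∧
      (2 * (a1 : ℝ) - 2 * (b1 : ℝ)) ^ 2 + (2 * (a2 : ℝ) - 2 * (b2 : ℝ)) ^ 2 ≤ 2 ^ 2) ↔
      ((a1 : ℤ) - b1) ^ 2 + ((a2 : ℤ) - b2) ^ 2 ≤ 1 := by
    constructor
    · rintro ⟨-, h⟩
      have : ((a1 : ℝ) - b1) ^ 2 + ((a2 : ℝ) - b2) ^ 2 ≤ 1 := by nlinarith
      exact_mod_cast this
    · intro h
      have : ((a1 : ℝ) - b1) ^ 2 + ((a2 : ℝ) - b2) ^ 2 ≤ 1 := by exact_mod_cast h
      refine ⟨by norm_num, by nlinarith⟩
  rw [e1]
  unfold near
  simp only
  constructor
  · rintro (⟨h1, h2, h3⟩ | ⟨h1, h2, h3⟩)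
    · subst h1
      have h4 : -1 ≤ (a2 : ℤ) - b2 := by omega
      have h5 : (a2 : ℤ) - b2 ≤ 1 := by omega
      nlinarith
    · subst h1
      have h4 : -1 ≤ (a1 : ℤ) - b1 := by omega
      have h5 : (a1 : ℤ) - b1 ≤ 1 := by omega
      nlinarith
  · intro h
    have h1 : ((a1 : ℤ) - b1) ^ 2 ≤ 1 := by nlinarith [sq_nonneg ((a2 : ℤ) - b2)]
    have h2 : ((a2 : ℤ) - b2) ^ 2 ≤ 1 := by nlinarith [sq_nonneg ((a1 : ℤ) - b1)]
    obtain ⟨h3a, h3b⟩ := int_sq_le_one h1
    obtain ⟨h4a, h4b⟩ := int_sq_le_one h2
    by_cases h5 : (a1 : ℤ) - b1 = 0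
    · left; omega
    · have h6 : ((a1 : ℤ) - b1) ^ 2 = 1 := by
        have : (a1 : ℤ) - b1 = 1 ∨ (a1 : ℤ) - b1 = -1 := by omega
        rcases this with h | h <;> rw [h] <;> norm_num
      have h7 : ((a2 : ℤ) - b2) = 0 := by
        have : ((a2 : ℤ) - b2) ^ 2 = 0 := by nlinarith [sq_nonneg ((a2 : ℤ) - b2)]
        exact pow_eq_zero_iff (two_ne_zero) |>.1 this
      right; omega

/-! ### Packing -/

/-- Height. -/
def height : RTree → ℕ
  | leaf => 0
  | one t => height t + 1
  | two s t => max (height s) (height t) + 1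

lemma dist_root : ∀ (t : RTree) (c : Vert t → EuclideanSpace ℝ (Fin 2)),
    (∀ u v, Adj t u v → dist (c u) (c v) ≤ 2) → ∀ v, dist (c v) (c (root t)) ≤ 2 * height t
  | leaf, c, _, v => by
    have : v = root leaf := rfl
    rw [this, dist_self]
    simp [height]
  | one t, c, h, (none : Option _) => by
    have : (none : Option (Vert t)) = root (one t) := rfl
    rw [this, dist_self]; positivity
  | one t, c, h, (some v : Option (Vert t)) => by
    have h1 := dist_root t (fun v => c (some v : Option (Vert t))) (fun u v huv => h _ _ huv) v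
    have h2 : dist (c (some (root t) : Option (Vert t))) (c (root (one t))) ≤ 2 := h _ _ rfl
    have h3 := dist_triangle (c (some v : Option (Vert t))) (c (some (root t) : Option (Vert t)))
      (c (root (one t)))
    simp only [height]
    push_cast
    linarith
  | two s t, c, h, (none : Option _) => by
    have : (none : Option (Vert s ⊕ Vert t)) = root (two s t) := rfl
    rw [this, dist_self]; positivity
  | two s t, c, h, (some (Sum.inl v) : Option (Vert s ⊕ Vert t)) => by
    have h1 := dist_root s (fun v => c (some (Sum.inl v) : Option (Vert s ⊕ Vert t)))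
      (fun u v huv => h _ _ huv) v
    have h2 : dist (c (some (Sum.inl (root s)) : Option (Vert s ⊕ Vert t))) (c (root (two s t))) ≤ 2 :=
      h _ _ rfl
    have h3 := dist_triangle (c (some (Sum.inl v) : Option (Vert s ⊕ Vert t)))
      (c (some (Sum.inl (root s)) : Option (Vert s ⊕ Vert t))) (c (root (two s t)))
    have h4 : (height s : ℝ) ≤ max (height s : ℝ) (height t) := le_max_left _ _
    simp only [height]
    push_cast
    linarith
  | two s t, c, h, (some (Sum.inr v) : Option (Vert s ⊕ Vert t)) => by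
    have h1 := dist_root t (fun v => c (some (Sum.inr v) : Option (Vert s ⊕ Vert t)))
      (fun u v huv => h _ _ huv) v
    have h2 : dist (c (some (Sum.inr (root t)) : Option (Vert s ⊕ Vert t))) (c (root (two s t))) ≤ 2 :=
      h _ _ rfl
    have h3 := dist_triangle (c (some (Sum.inr v) : Option (Vert s ⊕ Vert t)))
      (c (some (Sum.inr (root t)) : Option (Vert s ⊕ Vert t))) (c (root (two s t)))
    have h4 : (height t : ℝ) ≤ max (height s : ℝ) (height t) := le_max_right _ _
    simp only [height]
    push_cast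
    linarith

/-- Parity of the depth of a vertex. -/
def par : (t : RTree) → Vert t → Bool
  | leaf => fun _ => false
  | one t => fun (v : Option (Vert t)) => Option.elim v false (fun v => !(par t v))
  | two s t => fun (v : Option (Vert s ⊕ Vert t)) =>
    Option.elim v false (Sum.elim (fun v => !(par s v)) (fun v => !(par t v)))

lemma par_root : ∀ t : RTree, par t (root t) = false
  | leaf => rfl
  | one _ => rfl
  | two _ _ => rfl

lemma par_ne : ∀ (t : RTree) (u v : Vert t), Adj t u v → par t u ≠ par t v
  | leaf, _, _ => False.elim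
  | one _, (none : Option _), (none : Option _) => False.elim
  | one t, (none : Option _), (some v : Option _) => fun (h : v = root t) => by
    change false ≠ !(par t v)
    rw [h, par_root]; decide
  | one t, (some u : Option _), (none : Option _) => fun (h : u = root t) => by
    change (!(par t u)) ≠ false
    rw [h, par_root]; decide
  | one t, (some u : Option _), (some v : Option _) => fun h h' =>
    par_ne t u v h (Bool.not_inj h')
  | two _ _, (none : Option _), (none : Option _) => False.elim
  | two s _, (none : Option _), (some (Sum.inl v) : Option _) => fun (h : v = root s) => by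
    change false ≠ !(par s v)
    rw [h, par_root]; decide
  | two _ t, (none : Option _), (some (Sum.inr v) : Option _) => fun (h : v = root t) => by
    change false ≠ !(par t v)
    rw [h, par_root]; decide
  | two s _, (some (Sum.inl u) : Option _), (none : Option _) => fun (h : u = root s) => by
    change (!(par s u)) ≠ false
    rw [h, par_root]; decide
  | two _ t, (some (Sum.inr u) : Option _), (none : Option _) => fun (h : u = root t) => by
    change (!(par t u)) ≠ false
    rw [h, par_root]; decide
  | two s _, (some (Sum.inl u) : Option _), (some (Sum.inl v) : Option _) => fun h h' =>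
    par_ne s u v h (Bool.not_inj h')
  | two _ t, (some (Sum.inr u) : Option _), (some (Sum.inr v) : Option _) => fun h h' =>
    par_ne t u v h (Bool.not_inj h')
  | two _ _, (some (Sum.inl _) : Option _), (some (Sum.inr _) : Option _) => False.elim
  | two _ _, (some (Sum.inr _) : Option _), (some (Sum.inl _) : Option _) => False.elim

instance finite_Vert : ∀ t : RTree, Finite (Vert t)
  | leaf => inferInstanceAs (Finite Unit)
  | one t => by
    have := finite_Vert t
    exact inferInstanceAs (Finite (Option (Vert t)))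
  | two s t => by
    have := finite_Vert s
    have := finite_Vert t
    exact inferInstanceAs (Finite (Option (Vert s ⊕ Vert t)))

lemma card_leaf : Nat.card (Vert leaf) = 1 := Nat.card_unique (α := Unit)

lemma card_one (t : RTree) : Nat.card (Vert (one t)) = Nat.card (Vert t) + 1 :=
  Finite.card_option (α := Vert t)

lemma card_two (s t : RTree) :
    Nat.card (Vert (two s t)) = Nat.card (Vert s) + Nat.card (Vert t) + 1 := by
  have h1 : Nat.card (Vert (two s t)) = Nat.card (Vert s ⊕ Vert t) + 1 :=
    Finite.card_option (α := Vert s ⊕ Vert t)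
  rw [h1, Nat.card_sum]

lemma card_ext (t : RTree) : ∀ i, Nat.card (Vert (ext i t)) = Nat.card (Vert t) + i
  | 0 => rfl
  | i + 1 => by
    have h := card_one (ext i t)
    rw [card_ext t i] at h
    exact h

lemma height_ext (t : RTree) : ∀ i, height (ext i t) = height t + i
  | 0 => rfl
  | i + 1 => by
    have h : height (ext (i + 1) t) = height (ext i t) + 1 := rfl
    rw [h, height_ext t i]; rfl

lemma coord_le (x y : EuclideanSpace ℝ (Fin 2)) (i : Fin 2) : |x i - y i| ≤ dist x y := by
  rw [EuclideanSpace.dist_eq]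
  apply Real.abs_le_sqrt
  rw [Fin.sum_univ_two, Real.dist_eq, Real.dist_eq, sq_abs, sq_abs]
  fin_cases i
  · simp only [Fin.zero_eta, Fin.isValue]; nlinarith [sq_nonneg (x 1 - y 1)]
  · simp only [Fin.mk_one, Fin.isValue]; nlinarith [sq_nonneg (x 0 - y 0)]

/-- A unit disk tree of height `h` has at most `2 (4h+1)^2` vertices. -/
lemma packing (t : RTree) (H : IsUnitDisk t.graph') :
    Nat.card (Vert t) ≤ 2 * (4 * height t + 1) ^ 2 := by
  obtain ⟨c, hc⟩ := H
  have hadj : ∀ u v, Adj t u v → dist (c u) (c v) ≤ 2 := by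
    intro u v huv
    have hne : u ≠ v := fun h => adj_irrefl t u (h ▸ huv)
    exact (inter_iff _ _).1 ((hc u v hne).1 huv)
  have hroot := dist_root t c hadj
  set h : ℤ := 2 * height t with hh
  set x0 := c (root t) with hx0
  have hmem : ∀ v, (⌊c v 0 - x0 0⌋, ⌊c v 1 - x0 1⌋) ∈ Finset.Icc (-h) h ×ˢ Finset.Icc (-h) h := by
    intro v
    have key : ∀ i : Fin 2, ⌊c v i - x0 i⌋ ∈ Finset.Icc (-h) h := by
      intro i
      have h1 := abs_le.1 ((coord_le (c v) x0 i).trans (hroot v))
      rw [Finset.mem_Icc]
      constructor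
      · rw [Int.le_floor, hh]; push_cast; linarith [h1.1]
      · have h2 : (⌊c v i - x0 i⌋ : ℝ) ≤ (h : ℝ) := by
          rw [hh]; push_cast
          exact (Int.floor_le _).trans h1.2
        exact_mod_cast h2
    exact Finset.mem_product.2 ⟨key 0, key 1⟩
  let g : Vert t → Bool × ↥(Finset.Icc (-h) h ×ˢ Finset.Icc (-h) h) :=
    fun v => (par t v, ⟨(⌊c v 0 - x0 0⌋, ⌊c v 1 - x0 1⌋), hmem v⟩)
  have hg : Function.Injective g := by
    intro u v huv
    by_contra hne
    have hp : par t u = par t v := (Prod.mk.inj huv).1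
    have hl : (⌊c u 0 - x0 0⌋, ⌊c u 1 - x0 1⌋) = (⌊c v 0 - x0 0⌋, ⌊c v 1 - x0 1⌋) :=
      congrArg Subtype.val (Prod.mk.inj huv).2
    apply par_ne t u v _ hp
    apply (hc _ _ hne).2
    rw [inter_iff, EuclideanSpace.dist_eq, Real.sqrt_le_iff, Fin.sum_univ_two, Real.dist_eq,
      Real.dist_eq, sq_abs, sq_abs]
    have g1 := abs_lt.1 (Int.abs_sub_lt_one_of_floor_eq_floor (Prod.mk.inj hl).1)
    have g2 := abs_lt.1 (Int.abs_sub_lt_one_of_floor_eq_floor (Prod.mk.inj hl).2)
    refine ⟨by norm_num, ?_⟩
    have k1 : (c u 0 - c v 0) ^ 2 ≤ 1 := by nlinarith [g1.1, g1.2]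
    have k2 : (c u 1 - c v 1) ^ 2 ≤ 1 := by nlinarith [g2.1, g2.2]
    linarith
  have hcard := Nat.card_le_card_of_injective g hg
  rw [Nat.card_prod, Nat.card_eq_finsetCard, Finset.card_product, Int.card_Icc] at hcard
  have e1 : (h + 1 - -h).toNat = 4 * height t + 1 := by rw [hh]; omega
  have e2 : Nat.card Bool = 2 := by simp
  rw [e1, e2] at hcard
  rw [sq]
  exact hcard

/-! ### Dense trees -/

/-- A path with `i` vertices with a path with `m + 1` vertices attached at every second vertex. -/
def comb (m : ℕ) : ℕ → RTree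
  | 0 => leaf
  | i + 1 => two (one (comb m i)) (ext m leaf)

lemma draw_path (M : ℕ) : ∀ i : ℕ, Draw (ext i leaf) (fun x => x.2 ≤ i ∧ (x.1 = 0 ∨ M + i ≤ x.2))
  | 0 => by
    refine ⟨fun _ => (0, 0), rfl, fun _ => ⟨le_refl _, Or.inl rfl⟩, fun u v _ => rfl,
      fun u v h => ?_⟩
    exact absurd rfl h
  | i + 1 => draw_up (draw_path M i)

lemma draw_comb (m : ℕ) : ∀ i : ℕ, Draw (comb m i) (fun x => x.2 ≤ m + 1)
  | 0 => draw_mono draw_leaf fun _ hx => hx.trans (Nat.zero_le _)
  | i + 1 => draw_two (draw_right (draw_comb m i)) (draw_path (m + 2) m) (by omega) (by omega)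

lemma card_comb (m : ℕ) : ∀ i : ℕ, Nat.card (Vert (comb m i)) = i * (m + 3) + 1
  | 0 => by
    have h : Nat.card (Vert (comb m 0)) = 1 := card_leaf
    rw [h]; ring
  | i + 1 => by
    have h : Nat.card (Vert (comb m (i + 1))) = _ := card_two _ _
    rw [card_one, card_ext, card_leaf, card_comb m i] at h
    rw [h]; ring

lemma height_comb (m : ℕ) : ∀ i : ℕ, height (comb m i) ≤ 2 * i + m
  | 0 => Nat.zero_le _
  | i + 1 => by
    have h : height (comb m (i + 1)) = max (height (comb m i) + 1) (height (ext m leaf)) + 1 := rfl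
    have h1 := height_comb m i
    have h2 : height (ext m leaf) = m := by rw [height_ext]; simp [height]
    rw [h, h2]
    omega

/-! ### States -/

lemma orbit {S : Type} [Fintype S] (f : S → S) (x : S) :
    ∃ P, 1 ≤ P ∧ P ≤ Fintype.card S ∧
      ∀ q, f^[Fintype.card S + q * P] x = f^[Fintype.card S] x := by
  set N := Fintype.card S with hN
  obtain ⟨i, j, hij, he⟩ := Fintype.exists_ne_map_eq_of_card_lt
    (fun i : Fin (N + 1) => f^[(i : ℕ)] x) (by rw [Fintype.card_fin]; omega)
  wlog hlt : (i : ℕ) < j generalizing i j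
  · exact this j i hij.symm he.symm (lt_of_le_of_ne (not_lt.1 hlt) (fun h => hij (Fin.ext h.symm)))
  have hj := j.2
  have step : ∀ k, (i : ℕ) ≤ k → f^[k + ((j : ℕ) - i)] x = f^[k] x := by
    intro k hk
    have e1 : k + ((j : ℕ) - i) = (k - i) + j := by omega
    have e2 : k = (k - i) + i := by omega
    rw [e1, Function.iterate_add_apply]
    have he' : f^[(i : ℕ)] x = f^[(j : ℕ)] x := he
    rw [← he', ← Function.iterate_add_apply, ← e2]
  refine ⟨(j : ℕ) - i, by omega, by omega, fun q => ?_⟩
  induction q with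
  | zero => simp
  | succ q ih =>
    rw [Nat.succ_mul, ← Nat.add_assoc, step _ (by omega), ih]

/-- The binary tree of depth `k` with copies of `b` at the leaves and edges replaced by paths with
`N` inner vertices. -/
def full (N : ℕ) (b : RTree) : ℕ → RTree
  | 0 => b
  | k + 1 => two (ext N (full N b k)) (ext N (full N b k))

lemma height_full (N : ℕ) (b : RTree) : ∀ k, height (full N b k) = height b + k * (N + 1)
  | 0 => by simp [full]
  | k + 1 => by
    have h : height (full N b (k + 1)) = max (height (ext N (full N b k)))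
      (height (ext N (full N b k))) + 1 := rfl
    rw [h, max_self, height_ext, height_full N b k]
    ring

lemma card_full (N : ℕ) (b : RTree) : ∀ k, Nat.card (Vert (full N b k)) + (2 * N + 1)
    = 2 ^ k * (Nat.card (Vert b) + (2 * N + 1))
  | 0 => by simp [full]
  | k + 1 => by
    have h : Nat.card (Vert (full N b (k + 1))) = _ := card_two _ _
    rw [card_ext] at h
    have ih := card_full N b k
    rw [h, pow_succ]
    linarith

lemma exists_drawn {S : Type} [Fintype S] (a : S) (f : S → S) (g : S → S → S) (b : RTree)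
    (hb : ℕ) (Hb : Draw b (fun x => x.2 ≤ hb)) (k : ℕ) :
    ∃ (t : RTree) (h : ℕ), Draw t (fun x => x.2 ≤ h) ∧
      eval a f g t = eval a f g (full (Fintype.card S) b k) ∧
      h + (2 * Fintype.card S + 2) ≤ 2 ^ k * (hb + (2 * Fintype.card S + 2)) ∧
      Nat.card (Vert t) + (3 * Fintype.card S + 2)
        ≤ 2 ^ k * (Nat.card (Vert b) + (3 * Fintype.card S + 2)
          + k * (hb + (2 * Fintype.card S + 2))) := by
  have hN1 : 1 ≤ Fintype.card S := Fintype.card_pos_iff.2 ⟨a⟩
  set N := Fintype.card S with hN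
  induction k with
  | zero => exact ⟨b, hb, Hb, rfl, by simp, by simp⟩
  | succ k ih =>
    obtain ⟨t, h, h1, h2, h3, h4⟩ := ih
    obtain ⟨P, hP1, hP2, hP⟩ := orbit f (eval a f g t)
    rw [← hN] at hP hP2
    set j := N + ((h + 1) / P + 1) * P with hj
    have hq1 : h + 1 < ((h + 1) / P + 1) * P := by
      rw [mul_comm]; exact Nat.lt_mul_div_succ _ hP1
    have hq2 : (h + 1) / P * P ≤ h + 1 := Nat.div_mul_le_self _ _
    have hj1 : h + 1 ≤ j := by omega
    have hj2 : j ≤ h + 1 + 2 * N := by
      have : ((h + 1) / P + 1) * P = (h + 1) / P * P + P := by ring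
      omega
    obtain ⟨M, hM⟩ : ∃ M, N = M + 1 := ⟨N - 1, by omega⟩
    refine ⟨two (ext N t) (ext j t), h + j + 1, ?_, ?_, ?_, ?_⟩
    · have d1 : Draw (ext N t) (fun x => x.2 ≤ h ∧ (x.1 = 0 → x.2 = 0)) := by
        rw [hM]; exact draw_ext_right h1 M
      exact draw_two d1 (draw_ext_up h1 j) hj1 (by omega)
    · have e1 : eval a f g (two (ext N t) (ext j t))
          = g (eval a f g (ext N t)) (eval a f g (ext j t)) := rfl
      have e2 : eval a f g (full N b (k + 1))
          = g (eval a f g (ext N (full N b k))) (eval a f g (ext N (full N b k))) := rfl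
      rw [e1, e2, eval_ext, eval_ext, eval_ext, hP, h2]
    · rw [pow_succ]; nlinarith
    · rw [card_two, card_ext, card_ext, pow_succ]
      nlinarith

/-- Finitely many states: two trees in the same state, exactly one of them a unit disk graph. -/
theorem two_trees (S : Type) [Fintype S] (a : S) (f : S → S) (g : S → S → S) :
    ∃ s t : RTree, Nat.card s.Vert ≤ 6946816 * Fintype.card S ^ 2 ∧
      Nat.card t.Vert ≤ 6946816 * Fintype.card S ^ 2 ∧ s.eval a f g = t.eval a f g ∧
      IsUnitDisk s.graph' ∧ ¬ IsUnitDisk t.graph' := by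
  have hN1 : 1 ≤ Fintype.card S := Fintype.card_pos_iff.2 ⟨a⟩
  set N := Fintype.card S with hN
  obtain ⟨s, h, h1, h2, -, h4⟩ := exists_drawn a f g (comb N N) (N + 1) (draw_comb N N) 16
  rw [← hN] at h2 h4
  rw [card_comb] at h4
  have hsq : N ≤ N ^ 2 := by nlinarith
  refine ⟨s, full N (comb N N) 16, ?_, ?_, h2, isUnitDisk_of_draw h1, ?_⟩
  · have e1 : N * (N + 3) + 1 + (3 * N + 2) + 16 * (N + 1 + (2 * N + 2))
        = N ^ 2 + 54 * N + 51 := by ring
    rw [e1] at h4
    norm_num at h4
    omega
  · have k1 := card_full N (comb N N) 16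
    rw [card_comb] at k1
    have e1 : N * (N + 3) + 1 + (2 * N + 1) = N ^ 2 + 5 * N + 2 := by ring
    rw [e1] at k1
    norm_num at k1
    omega
  · intro H
    have k1 := packing _ H
    have k2 := card_full N (comb N N) 16
    have k3 := height_comb N N
    rw [card_comb] at k2
    rw [height_full] at k1
    have k4 : 4 * (height (comb N N) + 16 * (N + 1)) + 1 ≤ 141 * N := by omega
    have k5 : 2 * (4 * (height (comb N N) + 16 * (N + 1)) + 1) ^ 2 ≤ 2 * (141 * N) ^ 2 :=
      Nat.mul_le_mul_left 2 (Nat.pow_le_pow_left k4 2)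
    have e1 : N * (N + 3) + 1 + (2 * N + 1) = N ^ 2 + 5 * N + 2 := by ring
    have e2 : 2 * (141 * N) ^ 2 = 39762 * N ^ 2 := by ring
    rw [e1] at k2
    rw [e2] at k5
    norm_num at k2
    omega

open scoped Classical in
/-- There is `C` such that if a bottom-up evaluation with acceptance set `F` is right about all
trees with at most `n` vertices and takes at most `r` states on them, then `n ≤ C r^2`. -/
theorem main : ∃ C : ℕ, ∀ (S : Type) (a : S) (f : S → S) (g : S → S → S) (F : Set S) (n : ℕ)
    (R : Finset S), (∀ t : RTree, Nat.card t.verts ≤ n →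
      (t.eval a f g ∈ R ∧ (t.eval a f g ∈ F ↔ IsUnitDisk t.graph))) → n ≤ C * R.card ^ 2 := by
  refine ⟨4 * 6946816, ?_⟩
  intro S a f g F n R H
  by_contra hlt
  push Not at hlt
  have hn1 : 1 ≤ n := by omega
  have ha : a ∈ R := (H leaf (by rw [card_verts, card_leaf]; exact hn1)).1
  have hr : 1 ≤ R.card := Finset.card_pos.2 ⟨a, ha⟩
  let f' : Option R → Option R := fun x =>
    Option.elim x none (fun s => if h : f s ∈ R then some ⟨f s, h⟩ else none)
  let g' : Option R → Option R → Option R := fun x y =>
    Option.elim x none (fun s => Option.elim y none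
      (fun t => if h : g s t ∈ R then some ⟨g s t, h⟩ else none))
  have key : ∀ t : RTree, ∀ ht : Nat.card t.verts ≤ n,
      eval (some ⟨a, ha⟩) f' g' t = some ⟨eval a f g t, (H t ht).1⟩ := by
    intro t
    induction t with
    | leaf => intro ht; rfl
    | one t ih =>
      intro ht
      have hc := card_one t
      rw [← card_verts, ← card_verts] at hc
      have e1 : eval (some ⟨a, ha⟩) f' g' (one t) = f' (eval (some ⟨a, ha⟩) f' g' t) := rfl
      rw [e1, ih (by omega)]
      exact dif_pos (H (one t) ht).1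
    | two s t ihs iht =>
      intro ht
      have hc := card_two s t
      rw [← card_verts, ← card_verts, ← card_verts] at hc
      have e1 : eval (some ⟨a, ha⟩) f' g' (two s t)
          = g' (eval (some ⟨a, ha⟩) f' g' s) (eval (some ⟨a, ha⟩) f' g' t) := rfl
      rw [e1, ihs (by omega), iht (by omega)]
      exact dif_pos (H (two s t) ht).1
  obtain ⟨s, t, hs, ht, he, hs1, ht1⟩ := two_trees (Option R) (some ⟨a, ha⟩) f' g'
  have hcard : Fintype.card (Option R) = R.card + 1 := by
    rw [Fintype.card_option, Fintype.card_coe]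
  rw [hcard, ← card_verts] at hs ht
  rw [isUnitDisk_graph] at hs1 ht1
  have h4 : 6946816 * (R.card + 1) ^ 2 ≤ 4 * 6946816 * R.card ^ 2 := by nlinarith
  have hs' : Nat.card s.verts ≤ n := by omega
  have ht' : Nat.card t.verts ≤ n := by omega
  rw [key s hs', key t ht'] at he
  have he' : eval a f g s = eval a f g t := congrArg Subtype.val (Option.some_injective _ he)
  apply ht1
  rw [← (H t ht').2, ← he', (H s hs').2]
  exact hs1

end Pool.Agent.Lib.MP783262
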